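import Pool.Agent.V110.CC.Est

/-!
# A convex-cyclic operator whose negative is not convex-cyclic

The operator is minus the multiplication by `100 + i (1 - z) (3 - z)` on the closed span of the powers
of this function in `L²` of the circle (a subspace of the Hardy space).
-/

set_option autoImplicit false

namespace Pool.Agent.Results.MP_cfec29_an.NegNotConvexCyclic

open Filter Topology MeasureTheory Pool.Agent.V110.CC
open scoped Real InnerProductSpace

/-- `T` is convex-cyclic: for some vector `x` the convex hull of the orbit `x, T x, T² x, ...` is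
dense. -/
def ConvexCyclic {E : Type} [NormedAddCommGroup E] [InnerProductSpace ℂ E] (T : E →L[ℂ] E) : Prop :=
  ∃ x : E, Dense (convexHull ℝ (Set.range fun n : ℕ => (T ^ n) x))

/-- The real parts of the pairing with the cut function are eventually nonnegative. -/
theorem eventually_nonneg {x : K} (hx : x ∈ P) (h0 : x ≠ 0) :
    ∀ᶠ n : ℕ in atTop, 0 ≤ (⟪cut (1 / 2) x, mul (ww ^ n) x⟫_ℂ).re := by
  obtain ⟨c, hc, C, hC, hflat⟩ := flat hx h0
  have ht : Tendsto (fun n : ℕ => Real.sqrt (Real.sqrt n)) atTop atTop :=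
    Real.tendsto_sqrt_atTop.comp (Real.tendsto_sqrt_atTop.comp tendsto_natCast_atTop_atTop)
  have h1 : ∀ᶠ t : ℝ in atTop, ‖x‖ ^ 2 * Real.exp (-t) ≤ 1 / 2 * c ^ 2 := by
    have h2 : Tendsto (fun t : ℝ => ‖x‖ ^ 2 * Real.exp (-t)) atTop (𝓝 (‖x‖ ^ 2 * 0)) :=
      Real.tendsto_exp_neg_atTop_nhds_zero.const_mul _
    rw [mul_zero] at h2
    exact h2.eventually (ge_mem_nhds (by positivity))
  filter_upwards [ht.eventually h1, ht.eventually (eventually_ge_atTop 2),
    ht.eventually (eventually_ge_atTop ((128 * C + 1) * (1000 / 9)))] with n h2 h3 h4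
  set t := Real.sqrt (Real.sqrt n) with htn
  have ht4 : t ^ 4 = (n : ℝ) := by
    calc t ^ 4 = (t ^ 2) ^ 2 := by ring
      _ = (n : ℝ) := by
        rw [htn, Real.sq_sqrt (Real.sqrt_nonneg _), Real.sq_sqrt (Nat.cast_nonneg n)]
  have ht0 : 0 < t := by linarith
  have hδ1 : 1 / t ≤ 1 / 2 := one_div_le_one_div_of_le (by norm_num) h3
  have hδ0 : 0 < 1 / t := by positivity
  refine le_trans ?_ (main_lower x n (1 / t) hδ0 hδ1 ?_)
  swap
  · rw [← ht4]
    field_simp
    exact le_rfl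
  rw [sub_nonneg]
  have h5 := hflat (1 / t / 8) (by positivity) (by linarith)
  have h6 : (c * Real.exp (-C / (1 / t / 8) ^ 2)) ^ 2 ≤ ‖cut (1 / t / 8) x‖ ^ 2 := by gcongr
  have h7 : (c * Real.exp (-C / (1 / t / 8) ^ 2)) ^ 2 = c ^ 2 * Real.exp (-(128 * C * t ^ 2)) := by
    rw [_root_.mul_pow, ← Real.exp_nat_mul]
    congr 2
    field_simp
    push_cast
    ring
  rw [h7] at h6
  have h8 : 0 ≤ 100 - 6 / 5 * (1 / t) := by linarith
  have h9 : 0 ≤ 100 - 3 / 10 * (1 / t) := by linarith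
  have h10 : (100 - 6 / 5 * (1 / t)) ≤
      (100 - 3 / 10 * (1 / t)) * Real.exp (-(9 / 1000 * (1 / t))) := by
    have h11 := Real.add_one_le_exp (-(9 / 1000 * (1 / t)))
    have h12 : (100 - 3 / 10 * (1 / t)) * (-(9 / 1000 * (1 / t)) + 1) ≤
      (100 - 3 / 10 * (1 / t)) * Real.exp (-(9 / 1000 * (1 / t))) := by gcongr
    nlinarith [mul_pos hδ0 hδ0]
  have h11 : (100 - 6 / 5 * (1 / t)) ^ n ≤
      (100 - 3 / 10 * (1 / t)) ^ n * Real.exp (-(9 / 1000 * t ^ 3)) := by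
    calc (100 - 6 / 5 * (1 / t)) ^ n ≤
        ((100 - 3 / 10 * (1 / t)) * Real.exp (-(9 / 1000 * (1 / t)))) ^ n := by gcongr
      _ = (100 - 3 / 10 * (1 / t)) ^ n * Real.exp (-(9 / 1000 * t ^ 3)) := by
        rw [_root_.mul_pow, ← Real.exp_nat_mul]
        congr 2
        rw [← ht4]
        field_simp
  have h12 : Real.exp (-(9 / 1000 * t ^ 3)) * ‖x‖ ^ 2 ≤
      1 / 2 * (c ^ 2 * Real.exp (-(128 * C * t ^ 2))) := by
    have h13 : -(9 / 1000 * t ^ 3) ≤ -t + -(128 * C * t ^ 2) := by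
      have h14 : 128 * C + 1 ≤ 9 / 1000 * t := by linarith
      have h15 : (128 * C + 1) * t ^ 2 ≤ 9 / 1000 * t * t ^ 2 := by gcongr
      nlinarith
    calc Real.exp (-(9 / 1000 * t ^ 3)) * ‖x‖ ^ 2 ≤
        Real.exp (-t + -(128 * C * t ^ 2)) * ‖x‖ ^ 2 := by gcongr
      _ = (‖x‖ ^ 2 * Real.exp (-t)) * Real.exp (-(128 * C * t ^ 2)) := by rw [Real.exp_add]; ring
      _ ≤ 1 / 2 * c ^ 2 * Real.exp (-(128 * C * t ^ 2)) := by gcongr
      _ = _ := by ring
  have h13 : 0 ≤ (100 - 3 / 10 * (1 / t)) ^ n := by positivity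
  calc (100 - 6 / 5 * (1 / t)) ^ n * ‖x‖ ^ 2 ≤
      (100 - 3 / 10 * (1 / t)) ^ n * Real.exp (-(9 / 1000 * t ^ 3)) * ‖x‖ ^ 2 := by gcongr
    _ = (100 - 3 / 10 * (1 / t)) ^ n * (Real.exp (-(9 / 1000 * t ^ 3)) * ‖x‖ ^ 2) := by ring
    _ ≤ (100 - 3 / 10 * (1 / t)) ^ n * (1 / 2 * (c ^ 2 * Real.exp (-(128 * C * t ^ 2)))) := by gcongr
    _ ≤ (100 - 3 / 10 * (1 / t)) ^ n * (1 / 2 * ‖cut (1 / t / 8) x‖ ^ 2) := by gcongr
    _ = _ := by ring

theorem not_convexCyclic : ¬ ConvexCyclic SS := by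
  rintro ⟨x, hx⟩
  by_cases h0 : x = 0
  · have h1 : (Set.range fun n : ℕ => (SS ^ n) x) ⊆ {0} := by
      rintro _ ⟨n, rfl⟩
      change (SS ^ n) x = 0
      rw [h0, map_zero]
    have h2 : convexHull ℝ (Set.range fun n : ℕ => (SS ^ n) x) ⊆ {0} :=
      convexHull_min h1 (convex_singleton 0)
    have h3 : closure (convexHull ℝ (Set.range fun n : ℕ => (SS ^ n) x)) ⊆ {0} :=
      closure_minimal h2 isClosed_singleton
    have h4 : x0 = 0 := h3 (hx x0)
    have h5 : ι 1 = 0 := by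
      have := congrArg (fun y : HH => (y : K)) h4
      exact this
    have h6 : ‖ι 1‖ ^ 2 = ∫ θ, ‖ι 1 θ‖ ^ 2 ∂μ0 := norm_sq_eq _
    have h7 : ∫ θ, ‖ι 1 θ‖ ^ 2 ∂μ0 = ∫ _, (1 : ℝ) ∂μ0 := by
      refine integral_congr_ae ?_
      filter_upwards [ι_coe 1] with θ h
      rw [h]
      simp
    rw [h7, h5, norm_zero, μ0, ← intervalIntegral.integral_of_le (by linarith [Real.pi_pos]),
      intervalIntegral.integral_const] at h6
    have := Real.pi_pos
    simp at h6
    linarith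
  · have hxK : (x : K) ≠ 0 := fun h => h0 (Subtype.ext h)
    have hxP : (x : K) ∈ P := HH_le_P x.2
    obtain ⟨N, hN⟩ := eventually_atTop.1 (eventually_nonneg hxP hxK)
    set M : ℝ := ∑ i ∈ Finset.range N, |(⟪cut (1 / 2) (x : K), mul (ww ^ i) x⟫_ℂ).re| with hM
    have hM0 : 0 ≤ M := Finset.sum_nonneg fun i _ => abs_nonneg _
    have h1 : ∀ n : ℕ, -M ≤ (⟪cut (1 / 2) (x : K), mul (ww ^ n) x⟫_ℂ).re := by
      intro n
      rcases lt_or_ge n N with h | h
      · have h2 : |(⟪cut (1 / 2) (x : K), mul (ww ^ n) x⟫_ℂ).re| ≤ M :=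
          Finset.single_le_sum (f := fun i => |(⟪cut (1 / 2) (x : K), mul (ww ^ i) x⟫_ℂ).re|)
            (fun i _ => abs_nonneg _) (Finset.mem_range.2 h)
        have h3 := neg_abs_le (⟪cut (1 / 2) (x : K), mul (ww ^ n) x⟫_ℂ).re
        linarith
      · have := hN n h
        linarith
    have h2 : ∀ y : HH, -M ≤ (⟪cut (1 / 2) (x : K), (y : K)⟫_ℂ).re := by
      have hconv : Convex ℝ {y : HH | -M ≤ (⟪cut (1 / 2) (x : K), (y : K)⟫_ℂ).re} := by
        intro y hy z hz a b ha hb hab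
        change -M ≤ (⟪cut (1 / 2) (x : K), (y : K)⟫_ℂ).re at hy
        change -M ≤ (⟪cut (1 / 2) (x : K), (z : K)⟫_ℂ).re at hz
        change -M ≤ (⟪cut (1 / 2) (x : K), ((a • y + b • z : HH) : K)⟫_ℂ).re
        have h3 : ((a • y + b • z : HH) : K) = (a : ℂ) • (y : K) + (b : ℂ) • (z : K) := rfl
        rw [h3, inner_add_right, inner_smul_right, inner_smul_right, Complex.add_re,
          Complex.re_ofReal_mul, Complex.re_ofReal_mul]
        nlinarith
      have hclosed : IsClosed {y : HH | -M ≤ (⟪cut (1 / 2) (x : K), (y : K)⟫_ℂ).re} := by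
        refine isClosed_le continuous_const ?_
        exact Complex.continuous_re.comp (continuous_const.inner continuous_subtype_val)
      have h3 : convexHull ℝ (Set.range fun n : ℕ => (SS ^ n) x) ⊆
          {y : HH | -M ≤ (⟪cut (1 / 2) (x : K), (y : K)⟫_ℂ).re} := by
        refine convexHull_min ?_ hconv
        rintro _ ⟨n, rfl⟩
        change -M ≤ (⟪cut (1 / 2) (x : K), (((SS ^ n) x : HH) : K)⟫_ℂ).re
        rw [SS_pow_coe]
        exact h1 n
      intro y
      exact closure_minimal h3 hclosed (hx y)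
    have h3 : (⟪cut (1 / 2) (x : K), (x : K)⟫_ℂ).re = ‖cut (1 / 2) (x : K)‖ ^ 2 := by
      have h4 : ⟪cut (1 / 2) (x : K), (x : K)⟫_ℂ = ⟪cut (1 / 2) (x : K), cut (1 / 2) (x : K)⟫_ℂ := by
        rw [MeasureTheory.L2.inner_def, MeasureTheory.L2.inner_def]
        refine integral_congr_ae ?_
        filter_upwards [cut_coe (1 / 2) (x : K)] with θ h5
        rw [h5]
        by_cases h6 : θ ∈ Set.Ioo (-(1 / 2)) (0 : ℝ)
        · rw [Set.indicator_of_mem h6]
        · rw [Set.indicator_of_notMem h6, inner_zero_left, inner_zero_left]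
      rw [h4, inner_self_eq_norm_sq_to_K]
      norm_cast
    obtain ⟨c, hc, C, hC, hflat⟩ := flat hxP hxK
    have h4 : 0 < ‖cut (1 / 2) (x : K)‖ := by
      refine lt_of_lt_of_le ?_ (hflat (1 / 2) (by norm_num) (by norm_num))
      positivity
    have h5 := h2 ((-((M + 1) / ‖cut (1 / 2) (x : K)‖ ^ 2) : ℝ) • x)
    have h6 : (((-((M + 1) / ‖cut (1 / 2) (x : K)‖ ^ 2) : ℝ) • x : HH) : K) =
        (((-((M + 1) / ‖cut (1 / 2) (x : K)‖ ^ 2) : ℝ)) : ℂ) • (x : K) := rfl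
    rw [h6, inner_smul_right, Complex.re_ofReal_mul, h3] at h5
    have h7 : -((M + 1) / ‖cut (1 / 2) (x : K)‖ ^ 2) * ‖cut (1 / 2) (x : K)‖ ^ 2 = -(M + 1) := by
      field_simp
    rw [h7] at h5
    linarith

/-- There are a complex Hilbert space and a convex-cyclic bounded operator `T` on it such that `-T`
is not convex-cyclic. -/
theorem result : ∃ (E : Type) (_ : NormedAddCommGroup E) (_ : InnerProductSpace ℂ E)
    (_ : CompleteSpace E) (T : E →L[ℂ] E), ConvexCyclic T ∧ ¬ ConvexCyclic (-T) := by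
  refine ⟨HH, inferInstance, inferInstance, inferInstance, -SS, ⟨x0, dense_neg⟩, ?_⟩
  rw [neg_neg]
  exact not_convexCyclic

end Pool.Agent.Results.MP_cfec29_an.NegNotConvexCyclic
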